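import Pool.Agent.W919.EF.Main

set_option autoImplicit false

/-!
# Isomorphism of torsion-free abelian groups of rank `n` is essentially free, for every `n`

Definitions (in `Pool.Agent.H418R3.EF.Stmts`): `Sn n` is the standard Borel space of the subgroups
of `ℚ ^ n` of rank `n`, `IsoRel n` is isomorphism on `Sn n`, `EssFree E` says that `E` is Borel
bireducible with the orbit equivalence relation of a free Borel action of a countable group on a
standard Borel space.

Idea of the proof. Fix the algebra `D` of quasi-endomorphisms of the groups `A` considered; then
isomorphism is given by the normaliser `N` of `D` in `GL_n(ℚ)`, and all automorphisms lie in the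
normal subgroup `U = Dˣ` of `N`. For a prime `q` let `Λ_q(A)` be the intersection of the
localisation `A_(q)` with `q ^ (-k) ℤ_(q) ^ n`, where `k` is least such that `A_(q) / Λ_q(A)` is
`q`-divisible. Within a class of quasi-equality `Λ_q(A)` determines `A_(q)`. The `U`-orbits of the
pairs `(Λ_q(A), ℤ_(q) ^ n)` are points of a countable set on which `N / U` acts, and the label of
`g A` is `g` times the label of `A` for almost all `q`. The difference of the labels gives a cocycle
with values in the semidirect product of a countable module over `𝔽_2` and `N / U`, and this
cocycle is trivial only on the diagonal (up to finitely many primes, which are treated by a label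
in `ℕ`).
-/

namespace Pool.Agent.Results.MP_98674e_lc.AllRanks

open Pool.Agent.H418R3.EF

/-- For every `n` the isomorphism relation of torsion-free abelian groups of rank `n` is
essentially free. -/
theorem result : ∀ n : ℕ, EssFree (IsoRel n) :=
  fun n => Pool.Agent.W919.EF.main Pool.Agent.H938R3.EF.t Pool.Agent.H418R3.EF.Glue125.t
    Pool.Agent.H861R3.EFIso.t Pool.Agent.H861R3.EFStd.t n

end Pool.Agent.Results.MP_98674e_lc.AllRanks
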